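import Mathlib

/-!
# A Köthe algebra which is approximately contractible and not nuclear
-/

set_option autoImplicit false

open Filter Topology Set
open scoped NNReal ENNReal

namespace Pool.Agent.Results.MP_07c133_an.NonNuclearKothe

universe u

/-! ### Fréchet spaces and nuclear spaces -/

/-- `E` (a complex vector space with a uniform structure) is a Fréchet space: the uniform
structure is compatible with the additive group, the space is Hausdorff and complete, and its
topology is given by a sequence of seminorms. -/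
structure IsFrechet (E : Type u) [AddCommGroup E] [Module ℂ E] [UniformSpace E] : Prop where
  uniformAddGroup : IsUniformAddGroup E
  hausdorff : T2Space E
  complete : CompleteSpace E
  seminorms : ∃ p : ℕ → Seminorm ℂ E, WithSeminorms p

section local_banach

variable {E : Type u} [AddCommGroup E] [Module ℂ E]

/-- The vector space `E` equipped with the seminorm `p`. -/
def WithSN (_p : Seminorm ℂ E) : Type u := E

noncomputable instance (p : Seminorm ℂ E) : SeminormedAddCommGroup (WithSN p) :=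
  p.toSeminormedAddCommGroup

noncomputable instance (p : Seminorm ℂ E) : NormedSpace ℂ (WithSN p) where
  toModule := (inferInstance : Module ℂ E)
  norm_smul_le := fun a b => le_of_eq (map_smul_eq_mul p a b)

/-- The local Banach space: the Hausdorff completion of `(E, p)`, which is the completion of
`E / p⁻¹(0)` normed by `p`. -/
def LocalBanach (p : Seminorm ℂ E) : Type u := UniformSpace.Completion (WithSN p)

noncomputable instance (p : Seminorm ℂ E) : NormedAddCommGroup (LocalBanach p) :=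
  (inferInstance : NormedAddCommGroup (UniformSpace.Completion (WithSN p)))

noncomputable instance (p : Seminorm ℂ E) : NormedSpace ℂ (LocalBanach p) :=
  (inferInstance : NormedSpace ℂ (UniformSpace.Completion (WithSN p)))

/-- The canonical map from `E` to its local Banach space. -/
noncomputable def toLocal (p : Seminorm ℂ E) (x : E) : LocalBanach p :=
  ((show WithSN p from x : WithSN p) : UniformSpace.Completion (WithSN p))

/-- Nuclear operators between normed spaces. -/
def IsNuclearOp {A B : Type u} [NormedAddCommGroup A] [NormedSpace ℂ A] [NormedAddCommGroup B]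
    [NormedSpace ℂ B] (T : A →L[ℂ] B) : Prop :=
  ∃ (f : ℕ → (A →L[ℂ] ℂ)) (y : ℕ → B),
    Summable (fun n => ‖f n‖ * ‖y n‖) ∧ ∀ x, HasSum (fun n => f n x • y n) (T x)

/-- The canonical map from the local Banach space of `q` to that of `p` exists and is nuclear. -/
def NuclearLink (q p : Seminorm ℂ E) : Prop :=
  ∃ T : LocalBanach q →L[ℂ] LocalBanach p, (∀ x : E, T (toLocal q x) = toLocal p x) ∧ IsNuclearOp T

end local_banach

/-- Nuclear locally convex spaces, in the sense of Grothendieck: for every continuous seminorm `p`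
there is a continuous seminorm `q ≥ p` such that the canonical map between the local Banach spaces
of `q` and `p` is nuclear. -/
def IsNuclearSpace (E : Type u) [AddCommGroup E] [Module ℂ E] [TopologicalSpace E] : Prop :=
  ∀ p : Seminorm ℂ E, Continuous p → ∃ q : Seminorm ℂ E, Continuous q ∧ p ≤ q ∧ NuclearLink q p

/-! ### Bimodules, derivations, approximate contractibility -/

/-- A bimodule over the algebra `A` on the topological vector space `X`, with jointly continuous
actions: `l a x` is `a · x` and `r a x` is `x · a`. -/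
structure Bimod (A : Type) (X : Type u) [NonUnitalRing A] [Module ℂ A] [TopologicalSpace A]
    [AddCommGroup X] [Module ℂ X] [TopologicalSpace X] where
  l : A →ₗ[ℂ] X →ₗ[ℂ] X
  r : A →ₗ[ℂ] X →ₗ[ℂ] X
  l_mul : ∀ a b x, l (a * b) x = l a (l b x)
  r_mul : ∀ a b x, r (a * b) x = r b (r a x)
  l_r : ∀ a b x, l a (r b x) = r b (l a x)
  l_cont : Continuous fun p : A × X => l p.1 p.2
  r_cont : Continuous fun p : A × X => r p.1 p.2

/-- `A` is approximately contractible: every continuous derivation `D` with values in a Fréchet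
`A`-bimodule is the pointwise limit of a net of inner derivations `a ↦ a · ξ - ξ · a`. -/
def ApproxContractible (A : Type) [NonUnitalRing A] [Module ℂ A] [TopologicalSpace A] : Prop :=
  ∀ (X : Type u) [AddCommGroup X] [Module ℂ X] [UniformSpace X], IsFrechet X →
    ∀ (B : Bimod A X) (D : A →L[ℂ] X), (∀ a b, D (a * b) = B.l a (D b) + B.r b (D a)) →
      ∃ (ι : Type) (_ : Preorder ι) (_ : IsDirected ι (· ≤ ·)) (_ : Nonempty ι) (ξ : ι → X),
        ∀ a, Tendsto (fun j => B.l a (ξ j) - B.r a (ξ j)) atTop (𝓝 (D a))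

/-! ### Köthe algebras -/

section kothe

variable {I : Type}

/-- Köthe sets. -/
structure IsKotheSet (P : Set (I → ℝ≥0)) : Prop where
  countable : P.Countable
  pos : ∀ i, ∃ p ∈ P, 0 < p i
  dir : ∀ p ∈ P, ∀ q ∈ P, ∃ r ∈ P, ∀ i, max (p i) (q i) ≤ r i

/-- The elements of the Köthe space `λ(P)`. -/
def MemKothe (P : Set (I → ℝ≥0)) (x : I → ℂ) : Prop :=
  ∀ p ∈ P, Summable fun i => ‖x i‖ * (p i : ℝ)

/-- `λ(P)` is closed under pointwise multiplication. -/
def IsKotheAlgebra (P : Set (I → ℝ≥0)) : Prop :=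
  ∀ x y : I → ℂ, MemKothe P x → MemKothe P y → MemKothe P (x * y)

/-- `λ(P)` as a subalgebra of `ℂ^I`. -/
def kotheSubalgebra (P : Set (I → ℝ≥0)) (h : IsKotheAlgebra P) :
    NonUnitalSubalgebra ℂ (I → ℂ) where
  carrier := {x | MemKothe P x}
  add_mem' := by
    intro x y hx hy p hp
    refine Summable.of_nonneg_of_le (fun i => by positivity) (fun i => ?_) ((hx p hp).add (hy p hp))
    rw [← add_mul]
    exact mul_le_mul_of_nonneg_right (norm_add_le _ _) (p i).2
  zero_mem' := by
    intro p hp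
    simp
  mul_mem' := fun hx hy => h _ _ hx hy
  smul_mem' := by
    intro c x hx p hp
    have h1 := (hx p hp).mul_left ‖c‖
    refine h1.congr fun i => ?_
    rw [Pi.smul_apply, norm_smul, mul_assoc]

/-- The Köthe algebra `λ(P)`. -/
def KotheAlgebra (P : Set (I → ℝ≥0)) (h : IsKotheAlgebra P) : Type := kotheSubalgebra P h

variable {P : Set (I → ℝ≥0)} {h : IsKotheAlgebra P}

instance : NonUnitalCommRing (KotheAlgebra P h) :=
  inferInstanceAs (NonUnitalCommRing (kotheSubalgebra P h))

instance : Module ℂ (KotheAlgebra P h) :=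
  inferInstanceAs (Module ℂ (kotheSubalgebra P h))

instance : IsScalarTower ℂ (KotheAlgebra P h) (KotheAlgebra P h) :=
  inferInstanceAs (IsScalarTower ℂ (kotheSubalgebra P h) (kotheSubalgebra P h))

instance : SMulCommClass ℂ (KotheAlgebra P h) (KotheAlgebra P h) :=
  inferInstanceAs (SMulCommClass ℂ (kotheSubalgebra P h) (kotheSubalgebra P h))

/-- the coordinates of an element of `λ(P)` -/
def KotheAlgebra.coord (x : KotheAlgebra P h) : I → ℂ := Subtype.val x

/-- The seminorm `‖x‖_p = ∑ |x_i| p_i`. -/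
noncomputable def kotheSeminorm (P : Set (I → ℝ≥0)) (h : IsKotheAlgebra P) (p : P) :
    Seminorm ℂ (KotheAlgebra P h) where
  toFun x := ∑' i, ‖x.coord i‖ * (p.1 i : ℝ)
  map_zero' := by
    have h1 : ∀ i, (0 : KotheAlgebra P h).coord i = 0 := fun i => rfl
    simp [h1]
  add_le' x y := by
    have hx : Summable fun i => ‖x.coord i‖ * (p.1 i : ℝ) := x.2 p.1 p.2
    have hy : Summable fun i => ‖y.coord i‖ * (p.1 i : ℝ) := y.2 p.1 p.2
    have hxy : Summable fun i => ‖(x + y).coord i‖ * (p.1 i : ℝ) := (x + y).2 p.1 p.2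
    rw [← hx.tsum_add hy]
    refine hxy.tsum_le_tsum (fun i => ?_) (hx.add hy)
    rw [← add_mul]
    exact mul_le_mul_of_nonneg_right (norm_add_le _ _) (p.1 i).2
  neg' x := by
    have h1 : ∀ i, (-x).coord i = -x.coord i := fun i => rfl
    simp [h1]
  smul' c x := by
    have h1 : ∀ i, (c • x).coord i = c * x.coord i := fun i => rfl
    simp_rw [h1, norm_mul, mul_assoc]
    rw [tsum_mul_left]

/-- The topology of `λ(P)` is the one given by the seminorms `‖·‖_p`. -/
noncomputable instance [Nonempty P] : TopologicalSpace (KotheAlgebra P h) :=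
  (SeminormFamily.moduleFilterBasis (kotheSeminorm P h)).topology

lemma kothe_withSeminorms [Nonempty P] : WithSeminorms (kotheSeminorm P h) := ⟨rfl⟩

end kothe

/-! ### The algebraic identity -/

section identity

variable {A : Type} {X : Type u} [NonUnitalRing A] [Module ℂ A] [TopologicalSpace A]
    [AddCommGroup X] [Module ℂ X] [TopologicalSpace X] (B : Bimod A X) (D : A →L[ℂ] X)

lemma single_identity (hD : ∀ a b, D (a * b) = B.l a (D b) + B.r b (D a)) (a E : A) (c : ℂ)
    (hE : E * E = E) (h1 : a * E = c • E) (h2 : E * a = c • E) :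
    B.l a (B.l E (D E)) - B.r a (B.l E (D E)) = B.l E (D a) := by
  have h3 : B.r a (B.l E (D E)) = B.l E (B.r a (D E)) := (B.l_r E a (D E)).symm
  have h4 : B.r a (D E) = D (E * a) - B.l E (D a) := by rw [hD]; abel
  rw [h3, h4, map_sub, ← B.l_mul, ← B.l_mul, hE, h1, h2, map_smul, map_smul, map_smul,
    LinearMap.smul_apply]
  abel

lemma identity {ι : Type} (hcomm : ∀ a b : A, a * b = b * a)
    (hD : ∀ a b, D (a * b) = B.l a (D b) + B.r b (D a)) (S : Finset ι) (E : ι → A) (e : A)
    (he : ∑ i ∈ S, E i = e) (hee : e * e = e) (hE : ∀ i, E i * E i = E i)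
    (hc : ∀ (a : A) i, ∃ c : ℂ, a * E i = c • E i) (a : A) :
    B.l a (∑ i ∈ S, B.l (E i) (D (E i)) - D e + B.l e (D e)) -
      B.r a (∑ i ∈ S, B.l (E i) (D (E i)) - D e + B.l e (D e)) =
    D a - B.l (a - a * e) (D e) - D (a - a * e) + B.l e (D (a - a * e)) := by
  have h1 : B.l a (∑ i ∈ S, B.l (E i) (D (E i))) - B.r a (∑ i ∈ S, B.l (E i) (D (E i))) =
      B.l e (D a) := by
    rw [map_sum, map_sum, ← Finset.sum_sub_distrib, ← he, map_sum, LinearMap.sum_apply]
    refine Finset.sum_congr rfl fun i _ => ?_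
    obtain ⟨c, hc⟩ := hc a i
    exact single_identity B D hD a (E i) c (hE i) hc (by rw [hcomm]; exact hc)
  have h2 : B.r a (D e) = D (a * e) - B.l e (D a) := by
    rw [hcomm a e, hD]; abel
  have h3 : B.r a (B.l e (D e)) = B.l e (D (a * e)) - B.l e (D a) := by
    rw [← B.l_r, h2, map_sub, ← B.l_mul, hee]
  have h4 : B.l a (B.l e (D e)) = B.l (a * e) (D e) := (B.l_mul _ _ _).symm
  rw [map_add, map_add, map_sub, map_sub, h2, h3, h4]
  have h5 : B.l a (∑ i ∈ S, B.l (E i) (D (E i))) =
      B.r a (∑ i ∈ S, B.l (E i) (D (E i))) + B.l e (D a) := by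
    rw [← h1]; abel
  rw [h5]
  simp only [map_sub, LinearMap.sub_apply]
  abel

end identity

/-! ### The weights -/

/-- a fast sequence -/
def T : ℕ → ℕ
  | 0 => 2
  | k + 1 => T k ^ (k * k + 2 * k + 2)

lemma two_le_T (k : ℕ) : 2 ≤ T k := by
  induction k with
  | zero => exact le_rfl
  | succ k ih =>
    rw [T]
    exact ih.trans (Nat.le_self_pow (by omega) _)

lemma T_mono : Monotone T := by
  refine monotone_nat_of_le_succ fun k => ?_
  rw [T]
  exact Nat.le_self_pow (by omega) _

/-- the index set -/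
abbrev Idx : Type := Σ k : ℕ, Fin (T k ^ k)

/-- the weights -/
def w (n : ℕ) : Idx → ℝ≥0 := fun i => (T i.1 : ℝ≥0) ^ n

/-- the Köthe set -/
def PP : Set (Idx → ℝ≥0) := Set.range w

instance : Nonempty PP := ⟨⟨w 0, 0, rfl⟩⟩

lemma one_le_Tn (k n : ℕ) : (1 : ℝ) ≤ (T k : ℝ) ^ n := by
  refine one_le_pow₀ ?_
  have h := two_le_T k
  exact_mod_cast (by omega : 1 ≤ T k)

lemma w_mono {m n : ℕ} (h : m ≤ n) (i : Idx) : (w m i : ℝ) ≤ w n i := by
  have h2 : (1 : ℝ) ≤ T i.1 := by
    have h := two_le_T i.1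
    exact_mod_cast (by omega : 1 ≤ T i.1)
  show ((((T i.1 : ℝ≥0) ^ m : ℝ≥0)) : ℝ) ≤ (((T i.1 : ℝ≥0) ^ n : ℝ≥0) : ℝ)
  push_cast
  exact pow_le_pow_right₀ h2 h

lemma w_apply (n : ℕ) (i : Idx) : (w n i : ℝ) = (T i.1 : ℝ) ^ n := by
  show (((T i.1 : ℝ≥0) ^ n : ℝ≥0) : ℝ) = _
  push_cast
  rfl

theorem isKotheSet : IsKotheSet PP where
  countable := countable_range w
  pos := fun i => ⟨w 0, ⟨0, rfl⟩, by simp [w]⟩
  dir := by
    rintro _ ⟨m, rfl⟩ _ ⟨n, rfl⟩
    refine ⟨w (max m n), ⟨_, rfl⟩, fun i => max_le ?_ ?_⟩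
    · exact_mod_cast w_mono (le_max_left m n) i
    · exact_mod_cast w_mono (le_max_right m n) i

lemma norm_le_of_mem {x : Idx → ℂ} (hx : MemKothe PP x) (i : Idx) :
    ‖x i‖ ≤ ∑' j, ‖x j‖ * (w 0 j : ℝ) := by
  have h1 := hx (w 0) ⟨0, rfl⟩
  have h2 := h1.le_tsum i (fun j _ => by positivity)
  have h3 : (w 0 i : ℝ) = 1 := by rw [w_apply, pow_zero]
  rw [h3, mul_one] at h2
  exact h2

theorem isKotheAlgebra : IsKotheAlgebra PP := by
  intro x y hx hy p hp
  refine Summable.of_nonneg_of_le (fun i => by positivity) (fun i => ?_)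
    ((hx p hp).mul_left (∑' j, ‖y j‖ * (w 0 j : ℝ)))
  rw [Pi.mul_apply, norm_mul, mul_comm ‖x i‖, mul_assoc]
  exact mul_le_mul_of_nonneg_right (norm_le_of_mem hy i) (by positivity)

/-- the algebra -/
abbrev AA : Type := KotheAlgebra PP isKotheAlgebra

/-- its seminorms -/
noncomputable def sn (n : ℕ) : Seminorm ℂ AA := kotheSeminorm PP isKotheAlgebra ⟨w n, n, rfl⟩

lemma sn_apply (n : ℕ) (x : AA) : sn n x = ∑' i, ‖x.coord i‖ * (w n i : ℝ) := rfl

lemma sn_summable (n : ℕ) (x : AA) : Summable fun i => ‖x.coord i‖ * (w n i : ℝ) :=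
  x.2 (w n) ⟨n, rfl⟩

lemma sn_mono {m n : ℕ} (h : m ≤ n) : sn m ≤ sn n := by
  intro x
  rw [sn_apply, sn_apply]
  refine (sn_summable m x).tsum_le_tsum (fun i => ?_) (sn_summable n x)
  exact mul_le_mul_of_nonneg_left (w_mono h i) (norm_nonneg _)

lemma AA_ext {x y : AA} (h : ∀ i, x.coord i = y.coord i) : x = y :=
  Subtype.ext (funext h)

lemma memKothe_of_finite {x : Idx → ℂ} (S : Finset Idx) (h : ∀ i ∉ S, x i = 0) :
    MemKothe PP x := by
  intro p hp
  refine summable_of_ne_finset_zero (s := S) fun i hi => ?_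
  rw [h i hi]
  simp

/-- the first blocks -/
def SS (K : ℕ) : Finset Idx := (Finset.range (K + 1)).sigma fun _ => Finset.univ

lemma mem_SS {K : ℕ} {i : Idx} : i ∈ SS K ↔ i.1 ≤ K := by
  simp [SS]

/-- the unit vectors -/
noncomputable def EE (i : Idx) : AA := by
  classical
  exact ⟨fun j => if j = i then 1 else 0, memKothe_of_finite {i} fun j hj => by
    rw [Finset.mem_singleton] at hj
    simp [hj]⟩

lemma EE_coord (i j : Idx) : (EE i).coord j = if j = i then 1 else 0 := by
  classical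
  show (if j = i then (1 : ℂ) else 0) = _
  congr

/-- the idempotents -/
noncomputable def ee (K : ℕ) : AA :=
  ⟨fun j => if j.1 ≤ K then 1 else 0, memKothe_of_finite (SS K) fun j hj => by
    rw [mem_SS] at hj
    simp [hj]⟩

lemma ee_coord (K : ℕ) (j : Idx) : (ee K).coord j = if j.1 ≤ K then 1 else 0 := rfl

lemma mul_coord (x y : AA) (i : Idx) : (x * y).coord i = x.coord i * y.coord i := rfl
lemma add_coord (x y : AA) (i : Idx) : (x + y).coord i = x.coord i + y.coord i := rfl
lemma sub_coord (x y : AA) (i : Idx) : (x - y).coord i = x.coord i - y.coord i := rfl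
lemma smul_coord (c : ℂ) (x : AA) (i : Idx) : (c • x).coord i = c * x.coord i := rfl

lemma sum_coord {ι : Type} (S : Finset ι) (f : ι → AA) (i : Idx) :
    (∑ j ∈ S, f j).coord i = ∑ j ∈ S, (f j).coord i := by
  classical
  induction S using Finset.induction_on with
  | empty => rfl
  | insert a s ha ih => rw [Finset.sum_insert ha, Finset.sum_insert ha, add_coord, ih]

lemma sum_EE (K : ℕ) : ∑ i ∈ SS K, EE i = ee K := by
  refine AA_ext fun j => ?_
  rw [sum_coord, ee_coord]
  simp_rw [EE_coord]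
  rw [Finset.sum_ite_eq]
  simp [mem_SS]

lemma ee_ee (K : ℕ) : ee K * ee K = ee K := by
  refine AA_ext fun j => ?_
  rw [mul_coord, ee_coord]
  split_ifs <;> simp

lemma EE_EE (i : Idx) : EE i * EE i = EE i := by
  refine AA_ext fun j => ?_
  rw [mul_coord, EE_coord]
  split_ifs <;> simp

lemma mul_EE (a : AA) (i : Idx) : a * EE i = a.coord i • EE i := by
  refine AA_ext fun j => ?_
  rw [mul_coord, smul_coord, EE_coord]
  split_ifs with h
  · rw [h]
  · simp

lemma sn_ee (n K : ℕ) : sn n (ee K) ≤ (K + 1) * (T K : ℝ) ^ (K + n) := by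
  have h1 : sn n (ee K) = ∑ i ∈ SS K, (T i.1 : ℝ) ^ n := by
    rw [sn_apply, tsum_eq_sum (s := SS K)]
    · refine Finset.sum_congr rfl fun i hi => ?_
      rw [ee_coord, if_pos (mem_SS.1 hi), norm_one, one_mul, w_apply]
    · intro i hi
      rw [ee_coord, if_neg (fun h => hi (mem_SS.2 h))]
      simp
  rw [h1, SS, Finset.sum_sigma]
  have h2 : ∀ k ∈ Finset.range (K + 1), ∑ _j : Fin (T k ^ k), (T k : ℝ) ^ n ≤
      (T K : ℝ) ^ (K + n) := by
    intro k hk
    have hk' : k ≤ K := by simpa [Nat.lt_succ_iff] using hk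
    rw [Finset.sum_const, Finset.card_univ, Fintype.card_fin, nsmul_eq_mul]
    push_cast
    rw [← pow_add]
    have h3 : (T k : ℝ) ≤ T K := by exact_mod_cast T_mono hk'
    have h4 : (1 : ℝ) ≤ T K := by
      have := two_le_T K
      exact_mod_cast (by omega : 1 ≤ T K)
    exact (pow_le_pow_left₀ (by positivity) h3 _).trans (pow_le_pow_right₀ h4 (by omega))
  refine (Finset.sum_le_sum h2).trans ?_
  rw [Finset.sum_const, Finset.card_range, nsmul_eq_mul]
  push_cast
  exact le_rfl

lemma sn_tail (n K : ℕ) (a : AA) : sn n (a - a * ee K) * (T (K + 1) : ℝ) ≤ sn (n + 1) a := by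
  rw [sn_apply, sn_apply, ← tsum_mul_right]
  refine ((sn_summable n _).mul_right _).tsum_le_tsum (fun i => ?_) (sn_summable (n + 1) a)
  rw [sub_coord, mul_coord, ee_coord]
  split_ifs with h
  · simp only [mul_one, sub_self, norm_zero, zero_mul]
    positivity
  · rw [mul_zero, sub_zero, w_apply, w_apply, mul_assoc, pow_succ]
    have h1 : (T (K + 1) : ℝ) ≤ T i.1 := by exact_mod_cast T_mono (by omega : K + 1 ≤ i.1)
    gcongr

/-- the scaling factor -/
noncomputable def tf (K : ℕ) : ℝ := (T K : ℝ) ^ (K * K)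

lemma tf_pos (K : ℕ) : 0 < tf K := lt_of_lt_of_le one_pos (one_le_Tn K _)

lemma two_pow_le (K n : ℕ) : (2 : ℝ) ^ n ≤ (T K : ℝ) ^ n :=
  pow_le_pow_left₀ (by norm_num) (by exact_mod_cast two_le_T K) n

lemma T_succ_eq (K : ℕ) : (T (K + 1) : ℝ) = tf K * (T K : ℝ) ^ (2 * K + 2) := by
  rw [T, tf, ← pow_add]
  push_cast
  congr 1

lemma le_T_succ (K : ℕ) : tf K * 2 ^ K ≤ (T (K + 1) : ℝ) := by
  rw [T_succ_eq]
  refine mul_le_mul_of_nonneg_left ?_ (tf_pos K).le
  exact (two_pow_le K K).trans (pow_le_pow_right₀ (by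
    have := two_le_T K
    exact_mod_cast (by omega : 1 ≤ T K)) (by omega))

lemma sn_u (n K : ℕ) (a : AA) :
    sn n ((tf K : ℂ) • (a - a * ee K)) ≤ sn (n + 1) a * (1 / 2) ^ K := by
  have h1 := sn_tail n K a
  have h2 := le_T_succ K
  have h3 : 0 ≤ sn n (a - a * ee K) := apply_nonneg _ _
  rw [map_smul_eq_mul, Complex.norm_real, Real.norm_eq_abs, abs_of_pos (tf_pos K)]
  have h4 : sn n (a - a * ee K) * (tf K * 2 ^ K) ≤ sn (n + 1) a :=
    (mul_le_mul_of_nonneg_left h2 h3).trans h1
  rw [one_div, inv_pow, ← div_eq_mul_inv, le_div_iff₀ (by positivity)]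
  linarith

lemma sn_c (n K : ℕ) (a : AA) :
    sn n (a - a * ee K) ≤ sn (n + 1) a * (1 / 2) ^ K := by
  refine le_trans ?_ (sn_u n K a)
  rw [map_smul_eq_mul, Complex.norm_real, Real.norm_eq_abs, abs_of_pos (tf_pos K)]
  have h3 : 0 ≤ sn n (a - a * ee K) := apply_nonneg _ _
  have h4 : 1 ≤ tf K := one_le_Tn K _
  nlinarith

lemma sn_v (n K : ℕ) (hK : n + 3 ≤ K) :
    sn n (((tf K)⁻¹ : ℂ) • ee K) ≤ (1 / 2) ^ K := by
  have h0 : ((tf K)⁻¹ : ℂ) = (((tf K)⁻¹ : ℝ) : ℂ) := by push_cast; rfl
  rw [h0, map_smul_eq_mul, Complex.norm_real, Real.norm_eq_abs,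
    abs_of_pos (inv_pos.2 (tf_pos K)), one_div, inv_pow, inv_mul_le_iff₀ (tf_pos K),
    ← div_eq_mul_inv, le_div_iff₀ (by positivity)]
  have h1 := sn_ee n K
  have h2 : ((K : ℝ) + 1) ≤ 2 ^ K := by
    have : K + 1 ≤ 2 ^ K := Nat.lt_two_pow_self
    exact_mod_cast this
  have h3 : (1 : ℝ) ≤ T K := by
    have := two_le_T K
    exact_mod_cast (by omega : 1 ≤ T K)
  calc sn n (ee K) * 2 ^ K ≤ ((K + 1) * (T K : ℝ) ^ (K + n)) * 2 ^ K := by gcongr
    _ ≤ ((T K : ℝ) ^ K * (T K : ℝ) ^ (K + n)) * (T K : ℝ) ^ K := by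
        have h4 := two_pow_le K K
        have h5 : ((K : ℝ) + 1) ≤ (T K : ℝ) ^ K := h2.trans h4
        gcongr
    _ = (T K : ℝ) ^ (3 * K + n) := by rw [← pow_add, ← pow_add]; congr 1; ring
    _ ≤ tf K := pow_le_pow_right₀ h3 (by nlinarith)

lemma tendsto_AA {f : ℕ → AA} (h : ∀ n, Tendsto (fun K => sn n (f K)) atTop (𝓝 0)) :
    Tendsto f atTop (𝓝 0) := by
  rw [kothe_withSeminorms.tendsto_nhds]
  rintro ⟨_, n, rfl⟩ ε hε
  have h1 := (tendsto_order.1 (h n)).2 ε hε
  filter_upwards [h1] with K hK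
  rw [sub_zero]
  exact hK

lemma tendsto_geo (c : ℝ) : Tendsto (fun K : ℕ => c * (1 / 2 : ℝ) ^ K) atTop (𝓝 0) := by
  have h := (tendsto_pow_atTop_nhds_zero_of_lt_one (r := (1 / 2 : ℝ)) (by norm_num)
    (by norm_num)).const_mul c
  rwa [mul_zero] at h

lemma tendsto_u (a : AA) :
    Tendsto (fun K => (tf K : ℂ) • (a - a * ee K)) atTop (𝓝 0) :=
  tendsto_AA fun n => squeeze_zero (fun _ => apply_nonneg _ _) (fun K => sn_u n K a) (tendsto_geo _)

lemma tendsto_c (a : AA) : Tendsto (fun K => a - a * ee K) atTop (𝓝 0) :=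
  tendsto_AA fun n => squeeze_zero (fun _ => apply_nonneg _ _) (fun K => sn_c n K a) (tendsto_geo _)

lemma tendsto_v : Tendsto (fun K => ((tf K)⁻¹ : ℂ) • ee K) atTop (𝓝 0) := by
  refine tendsto_AA fun n => ?_
  have h := tendsto_geo 1
  simp only [one_mul] at h
  refine tendsto_of_tendsto_of_tendsto_of_le_of_le' tendsto_const_nhds h
    (Eventually.of_forall fun _ => apply_nonneg _ _) ?_
  filter_upwards [eventually_ge_atTop (n + 3)] with K hK
  exact sn_v n K hK

theorem approxContractible : ApproxContractible.{u} AA := by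
  intro X _ _ _ hX B D hD
  have := hX.uniformAddGroup
  refine ⟨ℕ, inferInstance, inferInstance, inferInstance,
    fun K => ∑ i ∈ SS K, B.l (EE i) (D (EE i)) - D (ee K) + B.l (ee K) (D (ee K)), fun a => ?_⟩
  have h0 : ∀ K, (tf K : ℂ) ≠ 0 := fun K => by
    exact_mod_cast (tf_pos K).ne'
  have h1 : Tendsto (fun K => B.l (a - a * ee K) (D (ee K))) atTop (𝓝 0) := by
    have h2 := (B.l_cont.tendsto (0, 0)).comp
      ((tendsto_u a).prodMk_nhds ((D.continuous.tendsto 0).comp tendsto_v |>.trans (by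
        rw [map_zero])))
    simp only [map_zero] at h2
    refine h2.congr fun K => ?_
    show B.l ((tf K : ℂ) • (a - a * ee K)) (D (((tf K)⁻¹ : ℂ) • ee K)) = _
    rw [map_smul, map_smul, map_smul, LinearMap.smul_apply, smul_smul, inv_mul_cancel₀ (h0 K),
      one_smul]
  have h3 : Tendsto (fun K => B.l (ee K) (D (a - a * ee K))) atTop (𝓝 0) := by
    have h2 := (B.l_cont.tendsto (0, 0)).comp
      (tendsto_v.prodMk_nhds ((D.continuous.tendsto 0).comp (tendsto_u a) |>.trans (by
        rw [map_zero])))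
    simp only [map_zero] at h2
    refine h2.congr fun K => ?_
    show B.l (((tf K)⁻¹ : ℂ) • ee K) (D ((tf K : ℂ) • (a - a * ee K))) = _
    rw [map_smul, map_smul, map_smul, LinearMap.smul_apply, smul_smul, mul_inv_cancel₀ (h0 K),
      one_smul]
  have h4 : Tendsto (fun K => D (a - a * ee K)) atTop (𝓝 0) := by
    have h5 := (D.continuous.tendsto 0).comp (tendsto_c a)
    rwa [map_zero] at h5
  have h6 := (((tendsto_const_nhds (x := D a)).sub h1).sub h4).add h3
  rw [sub_zero, sub_zero, add_zero] at h6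
  refine h6.congr fun K => ?_
  exact (identity B D mul_comm hD (SS K) EE (ee K) (sum_EE K) (ee_ee K) EE_EE
    (fun a i => ⟨_, mul_EE a i⟩) a).symm

/-! ### The algebra is not nuclear -/

lemma norm_toLocal (p : Seminorm ℂ AA) (x : AA) : ‖toLocal p x‖ = p x :=
  UniformSpace.Completion.norm_coe (E := WithSN p) _

/-- the coordinate functionals on the local Banach space -/
lemma exists_coord : ∃ c : Idx → (LocalBanach (sn 0) →L[ℂ] ℂ),
    (∀ i x, c i (toLocal (sn 0) x) = x.coord i) ∧
    ∀ (F : Finset Idx) (y : LocalBanach (sn 0)), ∑ i ∈ F, ‖c i y‖ ≤ ‖y‖ := by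
  have hle : ∀ (F : Finset Idx) (x : AA), ∑ i ∈ F, ‖x.coord i‖ ≤ sn 0 x := by
    intro F x
    rw [sn_apply]
    have h1 := (sn_summable 0 x).sum_le_tsum F (fun i _ => by positivity)
    refine le_trans (le_of_eq ?_) h1
    refine Finset.sum_congr rfl fun i _ => ?_
    rw [w_apply, pow_zero, mul_one]
  let lin : Idx → (WithSN (sn 0) →ₗ[ℂ] ℂ) := fun i =>
    { toFun := fun x => KotheAlgebra.coord (show AA from x) i
      map_add' := fun x y => rfl
      map_smul' := fun c x => rfl }
  let cl : Idx → (WithSN (sn 0) →L[ℂ] ℂ) := fun i => (lin i).mkContinuous 1 fun x => by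
    have h1 := hle {i} x
    rw [Finset.sum_singleton] at h1
    rw [one_mul]
    exact h1
  let e : WithSN (sn 0) →L[ℂ] UniformSpace.Completion (WithSN (sn 0)) :=
    UniformSpace.Completion.toComplL
  have he1 : DenseRange e := UniformSpace.Completion.denseRange_coe
  have he2 : IsUniformInducing e := UniformSpace.Completion.isUniformInducing_coe _
  have hc : ∀ i x, (cl i).extend e (toLocal (sn 0) x) = x.coord i := by
    intro i x
    exact ContinuousLinearMap.extend_eq (cl i) he1 he2 x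
  refine ⟨fun i => (cl i).extend e, hc, fun F y => ?_⟩
  induction y using UniformSpace.Completion.induction_on with
  | hp =>
    refine isClosed_le ?_ continuous_norm
    exact continuous_finsetSum _ fun i _ => ((cl i).extend e).continuous.norm
  | ih x =>
    have h1 := hle F x
    have h2 : ∑ i ∈ F, ‖(cl i).extend e (toLocal (sn 0) x)‖ = ∑ i ∈ F, ‖KotheAlgebra.coord x i‖ :=
      Finset.sum_congr rfl fun i _ => congrArg norm (hc i x)
    have h3 : ∑ i ∈ F, ‖(cl i).extend e (toLocal (sn 0) x)‖ ≤ ‖toLocal (sn 0) x‖ := by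
      exact (le_of_eq h2).trans (h1.trans (le_of_eq (norm_toLocal (sn 0) x).symm))
    exact h3

lemma sup_le_sn (s : Finset PP) : ∃ m, s.sup (kotheSeminorm PP isKotheAlgebra) ≤ sn m := by
  classical
  induction s using Finset.induction_on with
  | empty =>
    refine ⟨0, ?_⟩
    rw [Finset.sup_empty]
    exact bot_le
  | insert p s hp ih =>
    obtain ⟨m, hm⟩ := ih
    obtain ⟨p, n, rfl⟩ := p
    refine ⟨max m n, ?_⟩
    rw [Finset.sup_insert]
    exact sup_le (sn_mono (le_max_right m n)) (hm.trans (sn_mono (le_max_left m n)))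

lemma sn_EE (m : ℕ) (i : Idx) : sn m (EE i) = (T i.1 : ℝ) ^ m := by
  rw [sn_apply, tsum_eq_single i]
  · rw [EE_coord, if_pos rfl, norm_one, one_mul, w_apply]
  · intro j hj
    rw [EE_coord, if_neg hj]
    simp

theorem not_nuclear : ¬ IsNuclearSpace AA := by
  intro hnuc
  obtain ⟨q, hq, -, L, hL, f, y, hfy, hT⟩ := hnuc (sn 0)
    (kothe_withSeminorms.continuous_seminorm _)
  obtain ⟨s, C, -, hqC⟩ := Seminorm.bound_of_continuous kothe_withSeminorms q hq
  obtain ⟨m, hm⟩ := sup_le_sn s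
  have hqm : ∀ i, q (EE i) ≤ C * (T i.1 : ℝ) ^ m := by
    intro i
    have h1 := hqC (EE i)
    rw [smul_apply] at h1
    refine h1.trans ?_
    rw [← sn_EE, NNReal.smul_def, smul_eq_mul]
    exact mul_le_mul_of_nonneg_left (hm (EE i)) C.2
  obtain ⟨c, hc, hcs⟩ := exists_coord
  set M : ℝ := ∑' n, ‖f n‖ * ‖y n‖ with hM
  -- the coordinates
  have hone : ∀ i, (1 : ℝ) ≤ C * (T i.1 : ℝ) ^ m * ∑' n, ‖f n‖ * ‖c i (y n)‖ := by
    intro i
    have hsum : Summable fun n => ‖f n‖ * ‖c i (y n)‖ := by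
      refine Summable.of_nonneg_of_le (fun n => by positivity) (fun n => ?_) hfy
      have h1 := hcs {i} (y n)
      rw [Finset.sum_singleton] at h1
      exact mul_le_mul_of_nonneg_left h1 (norm_nonneg _)
    have h1 := (hT (toLocal q (EE i))).mapL (c i)
    have h2 : c i (L (toLocal q (EE i))) = 1 := by
      rw [hL, hc, EE_coord, if_pos rfl]
    rw [h2] at h1
    have h3 : ∀ n, ‖c i (f n (toLocal q (EE i)) • y n)‖ ≤
        (C * (T i.1 : ℝ) ^ m) * (‖f n‖ * ‖c i (y n)‖) := by
      intro n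
      rw [map_smul, norm_smul]
      have h4 : ‖f n (toLocal q (EE i))‖ ≤ ‖f n‖ * (C * (T i.1 : ℝ) ^ m) := by
        refine ((f n).le_opNorm _).trans ?_
        refine mul_le_mul_of_nonneg_left ?_ (norm_nonneg _)
        rw [norm_toLocal]
        exact hqm i
      calc _ ≤ (‖f n‖ * (C * (T i.1 : ℝ) ^ m)) * ‖c i (y n)‖ := by gcongr
        _ = _ := by ring
    have h5 := h1.norm_le_of_bounded (hsum.mul_left (C * (T i.1 : ℝ) ^ m)).hasSum h3
    rw [norm_one, tsum_mul_left] at h5
    exact h5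
  have hfin : ∀ F : Finset Idx, ∑ i ∈ F, ((T i.1 : ℝ) ^ m)⁻¹ ≤ C * M := by
    intro F
    have hsum : ∀ i, Summable fun n => ‖f n‖ * ‖c i (y n)‖ := by
      intro i
      refine Summable.of_nonneg_of_le (fun n => by positivity) (fun n => ?_) hfy
      have h1 := hcs {i} (y n)
      rw [Finset.sum_singleton] at h1
      exact mul_le_mul_of_nonneg_left h1 (norm_nonneg _)
    have hTp : ∀ i : Idx, (0 : ℝ) < (T i.1 : ℝ) ^ m := fun i =>
      lt_of_lt_of_le one_pos (one_le_Tn _ _)
    calc ∑ i ∈ F, ((T i.1 : ℝ) ^ m)⁻¹ ≤ ∑ i ∈ F, C * ∑' n, ‖f n‖ * ‖c i (y n)‖ := by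
          refine Finset.sum_le_sum fun i _ => ?_
          rw [inv_le_iff_one_le_mul₀ (hTp i)]
          have := hone i
          linarith
      _ = C * ∑' n, ∑ i ∈ F, ‖f n‖ * ‖c i (y n)‖ := by
          rw [← Finset.mul_sum, Summable.tsum_finsetSum fun i _ => hsum i]
      _ ≤ C * M := by
          refine mul_le_mul_of_nonneg_left ?_ C.2
          refine (summable_sum fun i _ => hsum i).tsum_le_tsum (fun n => ?_) hfy
          rw [← Finset.mul_sum]
          exact mul_le_mul_of_nonneg_left (hcs F (y n)) (norm_nonneg _)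
  -- the blocks are too large
  obtain ⟨k, hk⟩ := pow_unbounded_of_one_lt (C * M) (one_lt_two : (1 : ℝ) < 2)
  have h1 := hfin ((Finset.univ : Finset (Fin (T (m + k) ^ (m + k)))).map
    ⟨fun j => (⟨m + k, j⟩ : Idx), fun a b h => by simpa using h⟩)
  rw [Finset.sum_map] at h1
  have h1' : ∑ _x : Fin (T (m + k) ^ (m + k)), ((T (m + k) : ℝ) ^ m)⁻¹ ≤ C * M := h1
  rw [Finset.sum_const, Finset.card_univ, Fintype.card_fin, nsmul_eq_mul] at h1'
  push_cast at h1'
  clear h1
  rename' h1' => h1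
  have h2 : (0 : ℝ) < (T (m + k) : ℝ) := by
    have := two_le_T (m + k)
    exact_mod_cast (by omega : 0 < T (m + k))
  rw [pow_add, mul_comm ((T (m + k) : ℝ) ^ m), mul_assoc, mul_inv_cancel₀ (by positivity),
    mul_one] at h1
  have h3 := two_pow_le (m + k) k
  linarith

/-- **Main theorem.**  There is a (countable) Köthe set `P` such that `λ(P)` is a Köthe algebra
which is approximately contractible and which is not nuclear. -/
theorem result :
    ∃ (I : Type) (P : Set (I → ℝ≥0)) (_ : Nonempty P) (h : IsKotheAlgebra P), IsKotheSet P ∧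
      ApproxContractible.{u} (KotheAlgebra P h) ∧ ¬ IsNuclearSpace (KotheAlgebra P h) :=
  ⟨Idx, PP, inferInstance, isKotheAlgebra, isKotheSet, approxContractible, not_nuclear⟩

end Pool.Agent.Results.MP_07c133_an.NonNuclearKothe
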